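import Pool.Graph.R_pool_sql_team_seeded_620a6dc7.H948_Strat.Base
import Pool.Graph.R_pool_sql_team_seeded_620a6dc7.H948_Strat.Bous

/-!
The tower argument (3.4): if all `K`-phantoms out of `k ⊗ c`, `c` compact, with local target vanish,
then `[k, z] ∈ K` for every local object `z`.

Take `z₀ = z` and `z_{n+1} ⟶ z_n` universal with cone in `K`. For the cones `c_n` of `z_n ⟶ z` the object
`[k, z]` is the homotopy limit of the objects `[k, c_n] ∈ K`.
-/

set_option linter.unusedSectionVars false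
set_option linter.style.haveILetI false
set_option linter.unusedSimpArgs false

open CategoryTheory Limits MonoidalCategory Pretriangulated ZeroObject

universe v u w

namespace H948

variable {C : Type u} [Category.{v} C] [Preadditive C] [HasZeroObject C] [HasShift C ℤ]
  [∀ n : ℤ, (shiftFunctor C n).Additive] [Pretriangulated C]
  [MonoidalCategory C] [SymmetricCategory C] [MonoidalClosed C] [TensorExact C] [HasCoproducts.{v} C]

lemma Tw_curry_eq_zero {s x c : C} (g : s ⊗ x ⟶ c) (h : MonoidalClosed.curry g = 0) : g = 0 := by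
  have h2 := congrArg MonoidalClosed.uncurry h
  rw [MonoidalClosed.uncurry_curry, MonoidalClosed.uncurry_eq, MonoidalPreadditive.whiskerLeft_zero,
    zero_comp] at h2
  exact h2

lemma Tw_uncurry_zero {s x c : C} : MonoidalClosed.uncurry (0 : x ⟶ (ihom s).obj c) = 0 := by
  rw [MonoidalClosed.uncurry_eq, MonoidalPreadditive.whiskerLeft_zero, zero_comp]

lemma Tw_curry_zero {s x c : C} : MonoidalClosed.curry (0 : s ⊗ x ⟶ c) = 0 := by
  apply MonoidalClosed.uncurry_injective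
  rw [MonoidalClosed.uncurry_curry, Tw_uncurry_zero]

lemma IsCpt.shift' {c : C} (hc : IsCpt c) (n : ℤ) : IsCpt (c⟦n⟧) := by
  have h := (cptTri (C := C)).2.1
  exact ObjectProperty.le_shift (P := IsCpt (C := C)) n c hc

/-- A map killed after every map from the shifted source: shifting down. -/
lemma Tw_shift_kill {k d x y : C} (p : x ⟶ y)
    (h : ∀ (g : k ⊗ d⟦(-1 : ℤ)⟧ ⟶ x), g ≫ p = 0) (f : k ⊗ d ⟶ x⟦(1 : ℤ)⟧) :
    f ≫ p⟦(1 : ℤ)⟧' = 0 := by
  obtain ⟨e⟩ := tensorShift k d (-1)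
  have h1 := h (e.hom ≫ f⟦(-1 : ℤ)⟧' ≫ (shiftFunctorCompIsoId C (1 : ℤ) (-1) (by simp)).hom.app x)
  have h2 : (p⟦(1 : ℤ)⟧')⟦(-1 : ℤ)⟧' ≫ (shiftFunctorCompIsoId C (1 : ℤ) (-1) (by simp)).hom.app y =
      (shiftFunctorCompIsoId C (1 : ℤ) (-1) (by simp)).hom.app x ≫ p :=
    (shiftFunctorCompIsoId C (1 : ℤ) (-1) (by simp)).hom.naturality p
  rw [Category.assoc, Category.assoc, ← h2] at h1
  have h3 : f⟦(-1 : ℤ)⟧' ≫ (p⟦(1 : ℤ)⟧')⟦(-1 : ℤ)⟧' = 0 := by
    rw [← cancel_epi e.hom, ← cancel_mono ((shiftFunctorCompIsoId C (1 : ℤ) (-1) (by simp)).hom.app y),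
      Category.assoc, Category.assoc, h1, comp_zero, zero_comp]
  apply (shiftFunctor C (-1 : ℤ)).map_injective
  rw [Functor.map_comp, h3, Functor.map_zero]

/-- The algebraic part: homotopy limit. -/
lemma Tw_holim (hR : RPkg C) {K : ObjectProperty C} (Kiso : K.IsClosedUnderIsomorphisms)
    (Ktri : K.IsTriangulated)
    (Kprod : ∀ (ι : Type v) (X : ι → C) (F : Fan X), Nonempty (IsLimit F) → (∀ i, K (X i)) → K F.pt)
    (Z : C) (X : ℕ → C) (hX : ∀ n, K (X n)) (U : ∀ n, Z ⟶ X n) (R : ∀ n, X (n + 1) ⟶ X n)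
    (hUR : ∀ n, U (n + 1) ≫ R n = U n)
    (hA : ∀ (d : C), IsCpt d → ∀ (n : ℕ) (a : d ⟶ Z), a ≫ U (n + 1) = 0 → a = 0)
    (hB : ∀ (d : C), IsCpt d → ∀ (n : ℕ) (e : d ⟶ X (n + 1)), ∃ s : d ⟶ Z, e ≫ R n = s ≫ U n) :
    K Z := by
  have hp := hR.prods
  let P : C := ∏ᶜ fun n : ULift.{v} ℕ => X n.down
  let π : ∀ n, P ⟶ X n := fun n => Pi.π (fun n : ULift.{v} ℕ => X n.down) ⟨n⟩
  have hKP : K P := Kprod _ _ (limit.cone (Discrete.functor fun n : ULift.{v} ℕ => X n.down))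
    ⟨limit.isLimit _⟩ (fun n => hX n.down)
  have hext : ∀ (W : C) (f g : W ⟶ P), (∀ n, f ≫ π n = g ≫ π n) → f = g := by
    intro W f g h
    refine Pi.hom_ext _ _ ?_
    rintro ⟨n⟩
    exact h n
  have hlift : ∀ (W : C) (f : ∀ n, W ⟶ X n), ∃ g : W ⟶ P, ∀ n, g ≫ π n = f n := by
    intro W f
    refine ⟨Pi.lift fun n => f n.down, fun n => ?_⟩
    simp [π]
  clear_value P π
  obtain ⟨S, hS⟩ := hlift P (fun n => π n - π (n + 1) ≫ R n)
  obtain ⟨H, i, δ, hT⟩ := distinguished_cocone_triangle₁ S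
  have hKH : K H := K.ext_of_isTriangulatedClosed₁ _ hT hKP hKP
  have hiS : i ≫ S = 0 := comp_distTriang_mor_zero₁₂ _ hT
  have hiR : ∀ n, i ≫ π (n + 1) ≫ R n = i ≫ π n := by
    intro n
    have := hiS =≫ π n
    rw [Category.assoc, hS, zero_comp, Preadditive.comp_sub, sub_eq_zero] at this
    exact this.symm
  -- the comparison map
  obtain ⟨u, hu⟩ := hlift Z U
  have huS : u ≫ S = 0 := by
    apply hext
    intro n
    rw [Category.assoc, hS, Preadditive.comp_sub, hu, ← Category.assoc, hu, hUR, sub_self, zero_comp]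
  obtain ⟨h, hh⟩ : ∃ h : Z ⟶ H, u = h ≫ i := Triangle.coyoneda_exact₂ _ hT u huS
  -- injectivity
  have hinj : ∀ d : C, IsCpt d → ∀ a : d ⟶ Z, a ≫ h = 0 → a = 0 := by
    intro d hd a ha
    refine hA d hd 0 a ?_
    rw [← hu, hh, ← Category.assoc, ← Category.assoc, ha, zero_comp, zero_comp]
  -- maps from a compact object to `H` with zero components vanish
  have hlim1 : ∀ d : C, IsCpt d → ∀ b : d ⟶ H, b ≫ i = 0 → b = 0 := by
    intro d hd b hb
    have hb1 : b⟦(1 : ℤ)⟧' ≫ i⟦(1 : ℤ)⟧' = 0 := by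
      rw [← Functor.map_comp, hb, Functor.map_zero]
    obtain ⟨g, hg⟩ : ∃ g : d⟦(1 : ℤ)⟧ ⟶ P, b⟦(1 : ℤ)⟧' = g ≫ δ :=
      Triangle.coyoneda_exact₁ _ hT (b⟦(1 : ℤ)⟧') hb1
    have hd1 : IsCpt (d⟦(1 : ℤ)⟧) := hd.shift' 1
    choose t ht using fun n => hB _ hd1 n (g ≫ π (n + 1))
    let s : ℕ → (d⟦(1 : ℤ)⟧ ⟶ Z) := fun n => Nat.rec 0 (fun m r => r - t m) n
    have hs : ∀ n, s (n + 1) = s n - t n := fun n => rfl
    obtain ⟨x, hx⟩ := hlift (d⟦(1 : ℤ)⟧) (fun n => g ≫ π n + s n ≫ U n)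
    have hxg : x ≫ S = g := by
      apply hext
      intro n
      rw [Category.assoc, hS, Preadditive.comp_sub, hx, ← Category.assoc, hx, Preadditive.add_comp,
        ht, Category.assoc, hUR, hs, Preadditive.sub_comp]
      abel
    have h0 : b⟦(1 : ℤ)⟧' = 0 := by
      rw [hg, ← hxg, Category.assoc]
      have : S ≫ δ = 0 := comp_distTriang_mor_zero₂₃ _ hT
      rw [this, comp_zero]
    apply (shiftFunctor C (1 : ℤ)).map_injective
    rw [h0, Functor.map_zero]
  -- surjectivity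
  have hsur : ∀ d : C, IsCpt d → ∀ b : d ⟶ H, ∃ a : d ⟶ Z, b = a ≫ h := by
    intro d hd b
    choose a ha using fun n => hB d hd n (b ≫ i ≫ π (n + 1))
    have ha' : ∀ n, a n ≫ U n = b ≫ i ≫ π n := by
      intro n
      rw [← ha n, Category.assoc, Category.assoc, hiR]
    have hdown : ∀ n, a (n + 1) ≫ U n = b ≫ i ≫ π n := by
      intro n
      calc a (n + 1) ≫ U n = (a (n + 1) ≫ U (n + 1)) ≫ R n := by rw [Category.assoc, hUR]
        _ = b ≫ i ≫ π n := by rw [ha' (n + 1), Category.assoc, Category.assoc, hiR]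
    have hstep : ∀ n, a (n + 1) = a (n + 2) := by
      intro n
      rw [← sub_eq_zero]
      refine hA d hd n _ ?_
      rw [Preadditive.sub_comp, ha' (n + 1), hdown (n + 1), sub_self]
    have hconst : ∀ n, a (n + 1) = a 1 := by
      intro n
      induction n with
      | zero => rfl
      | succ n ih => rw [← hstep n, ih]
    refine ⟨a 1, ?_⟩
    rw [← sub_eq_zero]
    refine hlim1 d hd _ ?_
    apply hext
    intro n
    rw [Preadditive.sub_comp, Preadditive.sub_comp, zero_comp, Category.assoc, Category.assoc,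
      Category.assoc, ← Category.assoc h i, ← hh, hu, sub_eq_zero]
    rcases n with _ | n
    · exact (hdown 0).symm
    · rw [← ha' (n + 1), hconst]
  -- the comparison map is an isomorphism
  obtain ⟨W, w, γ, hW⟩ := distinguished_cocone_triangle h
  have hWz : IsZero W := by
    refine hR.gen W fun d g hd => ?_
    have hγ : g ≫ γ = 0 := by
      have h1 : (g ≫ γ) ≫ h⟦(1 : ℤ)⟧' = 0 := by
        have : γ ≫ h⟦(1 : ℤ)⟧' = 0 := comp_distTriang_mor_zero₃₁ _ hW
        rw [Category.assoc, this, comp_zero]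
      have hd1 : IsCpt (d⟦(-1 : ℤ)⟧) := hd.shift' (-1)
      have h2 := hinj _ hd1 ((g ≫ γ)⟦(-1 : ℤ)⟧' ≫
        (shiftFunctorCompIsoId C (1 : ℤ) (-1) (by simp)).hom.app Z) (by
          have h2 : (h⟦(1 : ℤ)⟧')⟦(-1 : ℤ)⟧' ≫
              (shiftFunctorCompIsoId C (1 : ℤ) (-1) (by simp)).hom.app H =
              (shiftFunctorCompIsoId C (1 : ℤ) (-1) (by simp)).hom.app Z ≫ h :=
            (shiftFunctorCompIsoId C (1 : ℤ) (-1) (by simp)).hom.naturality h
          rw [Category.assoc, ← h2, ← Category.assoc, ← Functor.map_comp, h1, Functor.map_zero,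
            zero_comp])
      have h3 : (g ≫ γ)⟦(-1 : ℤ)⟧' = 0 := by
        rw [← cancel_mono ((shiftFunctorCompIsoId C (1 : ℤ) (-1) (by simp)).hom.app Z), h2, zero_comp]
      apply (shiftFunctor C (-1 : ℤ)).map_injective
      rw [h3, Functor.map_zero]
    obtain ⟨g', hg'⟩ : ∃ g' : d ⟶ H, g = g' ≫ w := Triangle.coyoneda_exact₃ _ hW g hγ
    obtain ⟨a, rfl⟩ := hsur d hd g'
    have : h ≫ w = 0 := comp_distTriang_mor_zero₁₂ _ hW
    rw [hg', Category.assoc, this, comp_zero]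
  have hiso : IsIso h := (Triangle.isZero₃_iff_isIso₁ _ hW).mp hWz
  exact K.prop_of_iso (asIso h).symm hKH

/-- (3.4) -/
theorem tower [IsTriangulated C] (hR : RPkg C) (hz1 : S_z1 C) : S_tower C := by
  intro T K hS k hk hKk hph z hz
  have := hS.Kiso
  have := hS.Ktri
  -- the tower
  choose z' p hz' hp hpp using fun (z : {z : C // T z}) => hz1 T K hS z.1 z.2
  let zz : ℕ → {z : C // T z} := fun n => Nat.rec ⟨z, hz⟩ (fun _ w => ⟨z' w, hz' w⟩) n
  let P : ∀ n, (zz (n + 1)).1 ⟶ (zz n).1 := fun n => p (zz n)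
  let q : ∀ n, (zz n).1 ⟶ z := fun n => Nat.rec (𝟙 z) (fun m r => P m ≫ r) n
  have hq0 : q 0 = 𝟙 z := rfl
  have hqs : ∀ n, q (n + 1) = P n ≫ q n := fun n => rfl
  have hPW : ∀ n, K.trW (P n) := fun n => hp (zz n)
  have hPz : ∀ (n : ℕ) (d : C), IsCpt d → ∀ g : k ⊗ d ⟶ (zz (n + 1)).1, g ≫ P n = 0 := by
    intro n d hd g
    refine hph d _ _ hd (zz n).2 ?_
    exact (hpp (zz n) (k ⊗ d) (g ≫ P n) (hR.cpt_tensor hk hd)).2 ⟨g, rfl⟩
  have hqW : ∀ n, K.trW (q n) := by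
    intro n
    induction n with
    | zero => exact MorphismProperty.id_mem _ _
    | succ n ih => exact MorphismProperty.comp_mem _ _ _ (hPW n) ih
  clear_value q P
  choose c u δ hT hc using hqW
  have hr : ∀ n, ∃ r : c (n + 1) ⟶ c n, u (n + 1) ≫ r = u n ∧
      δ (n + 1) ≫ (P n)⟦(1 : ℤ)⟧' = r ≫ δ n := by
    intro n
    obtain ⟨r, h1, h2⟩ := complete_distinguished_triangle_morphism _ _ (hT (n + 1)) (hT n)
      (P n) (𝟙 z) (by
        change q (n + 1) ≫ 𝟙 z = P n ≫ q n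
        rw [Category.comp_id, hqs])
    refine ⟨r, ?_, h2⟩
    exact h1.trans (Category.id_comp _)
  choose r hr1 hr2 using hr
  refine Tw_holim hR hS.Kiso hS.Ktri hS.Kprod ((ihom k).obj z) (fun n => (ihom k).obj (c n))
    (fun n => hKk _ (hc n)) (fun n => (ihom k).map (u n)) (fun n => (ihom k).map (r n))
    (fun n => ?_) ?_ ?_
  · rw [← Functor.map_comp, hr1]
  · intro d hd n a ha
    have h1 : MonoidalClosed.uncurry a ≫ u (n + 1) = 0 := by
      rw [← MonoidalClosed.uncurry_natural_right, ha, Tw_uncurry_zero]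
    obtain ⟨b, hb⟩ : ∃ b : k ⊗ d ⟶ (zz (n + 1)).1, MonoidalClosed.uncurry a = b ≫ q (n + 1) :=
      Triangle.coyoneda_exact₂ _ (hT (n + 1)) _ h1
    rw [hqs, ← Category.assoc, hPz n d hd, zero_comp] at hb
    apply MonoidalClosed.uncurry_injective
    rw [hb, Tw_uncurry_zero]
  · intro d hd n e
    have h1 : (MonoidalClosed.uncurry e ≫ r n) ≫ δ n = 0 := by
      rw [Category.assoc, ← hr2, ← Category.assoc]
      exact Tw_shift_kill (P n) (fun g => hPz n _ (hd.shift' (-1)) g) _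
    obtain ⟨s, hs⟩ : ∃ s : k ⊗ d ⟶ z, MonoidalClosed.uncurry e ≫ r n = s ≫ u n :=
      Triangle.coyoneda_exact₃ _ (hT n) _ h1
    refine ⟨MonoidalClosed.curry s, ?_⟩
    apply MonoidalClosed.uncurry_injective
    rw [MonoidalClosed.uncurry_natural_right, MonoidalClosed.uncurry_natural_right,
      MonoidalClosed.uncurry_curry, hs]

end H948
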